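import Pool.Agent.helper13.BN.Final

set_option autoImplicit false

/-!
# Boundary concentration of nodal Brezis–Nirenberg solutions in dimensions 3, 4 and 5

For `N = 3, 4, 5` there is a round annulus `Ω = {ρ < |x| < 1}` and `λ* > 0` such that, for all `λ`
on one side of `λ*` and close to it, there are sign-changing solutions
`u_λ = u₀ + β W_{μ(λ),ξ(λ)} + φ_λ` of
`-Δu = λu + |u|^{4/(N-2)}u`, `u = 0` on `∂Ω`,
with `μ(λ) → 0`, `ξ(λ)` tending to the boundary, `‖∇φ_λ‖₂ → 0`, `β = 1` for `N = 3, 4` and
`β = -1` for `N = 5`. All definitions used in the statement are in `Pool.Agent.helper13.BN.Stmt`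
(and `E`, `IsTest`, `ts` in `Pool.Agent.helper13.BN.Defs`).

*Idea.* If the background solution `v` has nonzero normal derivative at a boundary point `P` there
is no concentration at `P` in low dimensions. We construct nodal solutions `v_λ`, `λ → λ*`, that are
axially symmetric, nondegenerate in the axially symmetric class, and whose normal derivative
`ε(λ)` at the pole `P` tends to `0` from above, while `v_λ(d) = ε d - γ d³ + …` on the axis, `γ > 0`.
Then the reduced energy has a strict local extremum at distance `d ~ √(ε/γ)` from `P`, and a
Lyapunov–Schmidt reduction gives a solution with one bubble there.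
The family `v_λ` bifurcates from zero near a parameter at which the second radial eigenvalue and the
first eigenvalue of a zonal mode of large odd degree cross (the radius `ρ` is the bifurcation
parameter of the crossing).
-/

namespace Pool.Agent.Results.MP_94a57f_an.BoundaryConcentration

open Pool.Agent.helper13.BN

/-- Boundary concentration of sign-changing solutions of `(BN_λ)` in an annulus,
for `N = 3, 4, 5`. -/
theorem result (N : ℕ) (hN : N = 3 ∨ N = 4 ∨ N = 5) :
    ∃ ρ lamb s δ : ℝ, 0 < ρ ∧ ρ < 1 ∧ 0 < lamb ∧ (s = 1 ∨ s = -1) ∧ 0 < δ ∧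
      Concentrate {x : E N | ρ < ‖x‖ ∧ ‖x‖ < 1} lamb (if N = 5 then -1 else 1)
        {lam : ℝ | 0 < s * (lam - lamb) ∧ s * (lam - lamb) < δ} :=
  main N hN

end Pool.Agent.Results.MP_94a57f_an.BoundaryConcentration
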